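import Pool.Agent.Helper50_SFT.Defs

/-!
# MP_5e5085_pr, module F2: layers
-/

set_option autoImplicit false

namespace Pool.Agent.Helper98_SFT

open Pool.Agent.Helper50_SFT

/-! ## The sup-convolution -/

open Classical in
/-- one half of a layer -/
noncomputable def ext (D : Z2 → Set Z2) (q : Z2 → Z2 → ℝ) (dd : ℝ) (x : Z2) : ℝ :=
  ⨆ p : Z2 × Z2, if p.2 ∈ D p.1 then max 0 (q p.1 p.2 - dist x p.2 / dd) else 0

section ext
variable {D : Z2 → Set Z2} {q : Z2 → Z2 → ℝ} {dd B : ℝ}

open Classical in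
theorem term_le (hB : 0 ≤ B) (hdd : 0 < dd) (hq : ∀ v y, y ∈ D v → q v y ≤ B) (x : Z2)
    (p : Z2 × Z2) : (if p.2 ∈ D p.1 then max 0 (q p.1 p.2 - dist x p.2 / dd) else 0) ≤ B := by
  split_ifs with h
  · apply max_le hB
    have h1 := hq _ _ h
    have h2 : 0 ≤ dist x p.2 / dd := by positivity
    linarith
  · exact hB

open Classical in
theorem term_nonneg (x : Z2) (p : Z2 × Z2) :
    0 ≤ (if p.2 ∈ D p.1 then max 0 (q p.1 p.2 - dist x p.2 / dd) else 0) := by
  split_ifs
  · exact le_max_left _ _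
  · exact le_rfl

open Classical in
theorem bdd (hB : 0 ≤ B) (hdd : 0 < dd) (hq : ∀ v y, y ∈ D v → q v y ≤ B) (x : Z2) :
    BddAbove (Set.range fun p : Z2 × Z2 =>
      if p.2 ∈ D p.1 then max 0 (q p.1 p.2 - dist x p.2 / dd) else 0) :=
  ⟨B, by rintro _ ⟨p, rfl⟩; exact term_le hB hdd hq x p⟩

theorem ext_nonneg (x : Z2) : 0 ≤ ext D q dd x := Real.iSup_nonneg fun p => term_nonneg x p

theorem ext_le_add (hB : 0 ≤ B) (hdd : 0 < dd) (hq : ∀ v y, y ∈ D v → q v y ≤ B) (x z : Z2) :
    ext D q dd x ≤ ext D q dd z + dist x z / dd := by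
  classical
  apply ciSup_le
  intro p
  have h0 : 0 ≤ dist x z / dd := by positivity
  split_ifs with h
  · apply max_le
    · have := ext_nonneg (D := D) (q := q) (dd := dd) z
      linarith
    · have h1 : (if p.2 ∈ D p.1 then max 0 (q p.1 p.2 - dist z p.2 / dd) else 0) ≤ ext D q dd z :=
        le_ciSup (bdd hB hdd hq z) p
      rw [if_pos h] at h1
      have h2 := le_max_right 0 (q p.1 p.2 - dist z p.2 / dd)
      have h3 : dist z p.2 ≤ dist x z + dist x p.2 := by
        rw [dist_comm x z]; exact dist_triangle _ _ _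
      have h4 : dist z p.2 / dd ≤ dist x z / dd + dist x p.2 / dd := by
        rw [← add_div]; exact div_le_div_of_nonneg_right h3 hdd.le
      linarith
  · have := ext_nonneg (D := D) (q := q) (dd := dd) z
    linarith

theorem ext_on (hB : 0 ≤ B) (hdd : 0 < dd) (hq : ∀ v y, y ∈ D v → q v y ≤ B) {v x : Z2}
    (hx : x ∈ D v) (h1 : ∀ y ∈ D v, q v y ≤ q v x + dist x y / dd)
    (h2 : ∀ w y, w ≠ v → y ∈ D w → B ≤ dist x y / dd) : ext D q dd x = max 0 (q v x) := by
  classical
  apply le_antisymm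
  · apply ciSup_le
    intro p
    split_ifs with h
    · by_cases hw : p.1 = v
      · apply max_le (le_max_left _ _)
        have := h1 p.2 (by rw [← hw]; exact h)
        rw [hw]
        refine le_trans ?_ (le_max_right _ _)
        linarith
      · apply max_le (le_max_left _ _)
        have h3 := h2 _ _ hw h
        have h4 := hq _ _ h
        refine le_trans ?_ (le_max_left _ _)
        linarith
    · exact le_max_left _ _
  · have h3 : (if (v, x).2 ∈ D (v, x).1 then max 0 (q (v, x).1 (v, x).2 - dist x (v, x).2 / dd) else 0)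
        ≤ ext D q dd x := le_ciSup (bdd hB hdd hq x) (v, x)
    rw [if_pos (show (v, x).2 ∈ D (v, x).1 from hx)] at h3
    simpa using h3

/-- termwise comparison -/
theorem ext_congr {D' : Z2 → Set Z2} {q' : Z2 → Z2 → ℝ} {x : Z2} (hdd : 0 < dd)
    (hq : ∀ v y, y ∈ D v → q v y ≤ B) (hq' : ∀ v y, y ∈ D' v → q' v y ≤ B)
    (h : ∀ w y, dist x y ≤ B * dd → ((y ∈ D w ↔ y ∈ D' w) ∧ (y ∈ D w → q w y = q' w y))) :
    ext D q dd x = ext D' q' dd x := by
  classical
  unfold ext
  congr 1
  funext p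
  by_cases hd : dist x p.2 ≤ B * dd
  · obtain ⟨h1, h2⟩ := h p.1 p.2 hd
    by_cases h3 : p.2 ∈ D p.1
    · rw [if_pos h3, if_pos (h1.1 h3), h2 h3]
    · rw [if_neg h3, if_neg (fun h4 => h3 (h1.2 h4))]
  · push Not at hd
    have h5 : B < dist x p.2 / dd := by rw [lt_div_iff₀ hdd]; exact hd
    have e1 : (if p.2 ∈ D p.1 then max 0 (q p.1 p.2 - dist x p.2 / dd) else 0) = 0 := by
      split_ifs with h3
      · have := hq _ _ h3
        exact max_eq_left (by linarith)
      · rfl
    have e2 : (if p.2 ∈ D' p.1 then max 0 (q' p.1 p.2 - dist x p.2 / dd) else 0) = 0 := by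
      split_ifs with h3
      · have := hq' _ _ h3
        exact max_eq_left (by linarith)
      · rfl
    rw [e1, e2]

end ext

/-! ## Layers -/

theorem lay_eq (P d : ℕ → ℕ) (D : ℕ → Z2 → Set Z2) (c : Fin 2) (j : ℕ) (G : Z2 → ℝ) (x : Z2) :
    lay P d D c j G x = G x + ext (D j) (defect P c j G) (d j) x -
      ext (D j) (fun v y => -defect P c j G v y) (d j) x := rfl

/-- invariant before layer `m - 1` -/
def Inv (d : ℕ → ℕ) (c : Fin 2) (m : ℕ) (G : Z2 → ℝ) : Prop :=
  ∀ x y : Z2, |G x - G y - ((x c - y c : ℤ) : ℝ)| ≤ 3 / d m * dist x y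

section lay
variable {P d T L : ℕ → ℕ} (hL : LayPar P d T L)
include hL

theorem d_pos (m : ℕ) : 0 < d m := by
  induction m with
  | zero => have := hL.hd0; omega
  | succ m ih => have := hL.hd m; omega

theorem d_pos' (m : ℕ) : (0 : ℝ) < d m := by exact_mod_cast d_pos hL m

theorem three_div (j : ℕ) : (3 : ℝ) / d (j + 1) ≤ 1 / d j := by
  have h1 := d_pos' hL j
  have h2 := d_pos' hL (j + 1)
  rw [div_le_div_iff₀ h2 h1]
  have := hL.hd j
  have : (3 : ℝ) * d j ≤ d (j + 1) := by exact_mod_cast this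
  linarith

theorem abs_defect_le {D : ℕ → Z2 → Set Z2} (hD : Toast T L D) {c : Fin 2} {j : ℕ} {G : Z2 → ℝ}
    (hG : Inv d c (j + 1) G) {v y : Z2} (hy : y ∈ D j v) : |defect P c j G v y| ≤ P j := by
  have hv := hD.self _ _ _ hy
  have h1 := hD.diam _ _ _ _ hy hv
  have h2 := hG y v
  have hd := d_pos' hL (j + 1)
  have h3 : 3 / d (j + 1) * dist y v ≤ 3 := by
    have h4 : dist y v ≤ d (j + 1) := h1.trans (by exact_mod_cast hL.hdL j)
    calc 3 / (d (j + 1) : ℝ) * dist y v ≤ 3 / (d (j + 1) : ℝ) * d (j + 1) :=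
          mul_le_mul_of_nonneg_left h4 (by positivity)
      _ = 3 := by field_simp
  have hP : (6 : ℝ) ≤ P j := by exact_mod_cast hL.hP j
  have hr := abs_sub_round (G v / P j)
  have h5 : |G v - P j * (round (G v / P j) : ℝ)| ≤ P j / 2 := by
    have h6 : G v - P j * (round (G v / P j) : ℝ) = P j * (G v / P j - round (G v / P j)) := by
      field_simp
    rw [h6, abs_mul, abs_of_nonneg (by positivity)]
    calc (P j : ℝ) * |G v / P j - round (G v / P j)| ≤ P j * (1 / 2) :=
          mul_le_mul_of_nonneg_left hr (by positivity)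
      _ = P j / 2 := by ring
  unfold defect
  have h7 : |G y - G v - ((y c - v c : ℤ) : ℝ)| ≤ 3 := h2.trans h3
  rw [abs_le] at h5 h7 ⊢
  constructor <;> linarith

theorem Inv.lay {D : ℕ → Z2 → Set Z2} (hD : Toast T L D) {c : Fin 2} {j : ℕ} {G : Z2 → ℝ}
    (hG : Inv d c (j + 1) G) : Inv d c j (lay P d D c j G) := by
  intro x y
  have hd := d_pos' hL j
  have hb : ∀ v y, y ∈ D j v → |defect P c j G v y| ≤ (P j : ℝ) := fun v y h =>
    abs_defect_le hL hD hG h
  have hb1 : ∀ v y, y ∈ D j v → defect P c j G v y ≤ (P j : ℝ) := fun v y h =>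
    (abs_le.1 (hb v y h)).2
  have hb2 : ∀ v y, y ∈ D j v → (fun v y => -defect P c j G v y) v y ≤ (P j : ℝ) := fun v y h => by
    have := (abs_le.1 (hb v y h)).1
    linarith
  have hP0 : (0 : ℝ) ≤ P j := Nat.cast_nonneg _
  have a1 := ext_le_add hP0 hd hb1 x y
  have a2 := ext_le_add hP0 hd hb1 y x
  have a3 := ext_le_add hP0 hd hb2 x y
  have a4 := ext_le_add hP0 hd hb2 y x
  rw [dist_comm y x] at a2 a4
  have h1 := hG x y
  have h2 := three_div hL j
  have h3 : 3 / (d (j + 1) : ℝ) * dist x y ≤ 1 / d j * dist x y :=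
    mul_le_mul_of_nonneg_right h2 dist_nonneg
  have h4 : 3 / (d j : ℝ) * dist x y = 3 * (dist x y / d j) := by ring
  have h5 : 1 / (d j : ℝ) * dist x y = dist x y / d j := by ring
  rw [lay_eq, lay_eq, h4]
  rw [abs_le] at h1 ⊢
  constructor <;> linarith

/-- on a piece the layer is exact -/
theorem lay_on {D : ℕ → Z2 → Set Z2} (hD : Toast T L D) {c : Fin 2} {j : ℕ} {G : Z2 → ℝ}
    (hG : Inv d c (j + 1) G) {v x : Z2} (hx : x ∈ D j v) :
    lay P d D c j G x = ((x c - v c : ℤ) : ℝ) + P j * (round (G v / P j) : ℝ) := by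
  have hd := d_pos' hL j
  have hb : ∀ v y, y ∈ D j v → |defect P c j G v y| ≤ (P j : ℝ) := fun v y h =>
    abs_defect_le hL hD hG h
  have hb1 : ∀ v y, y ∈ D j v → defect P c j G v y ≤ (P j : ℝ) := fun v y h =>
    (abs_le.1 (hb v y h)).2
  have hb2 : ∀ v y, y ∈ D j v → (fun v y => -defect P c j G v y) v y ≤ (P j : ℝ) := fun v y h => by
    have := (abs_le.1 (hb v y h)).1
    linarith
  have hP0 : (0 : ℝ) ≤ P j := Nat.cast_nonneg _
  have hfar : ∀ w y, w ≠ v → y ∈ D j w → (P j : ℝ) ≤ dist x y / d j := by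
    intro w y hw hy
    rw [le_div_iff₀ hd]
    have h1 := hD.sep j v w x y (Ne.symm hw) hx hy
    have h2 : (P j : ℝ) * d j ≤ T j := by exact_mod_cast hL.hT j
    linarith
  have hlip : ∀ y, |defect P c j G v y - defect P c j G v x| ≤ dist x y / d j := by
    intro y
    have h1 := hG x y
    have h2 := three_div hL j
    have h3 : 3 / (d (j + 1) : ℝ) * dist x y ≤ 1 / d j * dist x y :=
      mul_le_mul_of_nonneg_right h2 dist_nonneg
    have h5 : 1 / (d j : ℝ) * dist x y = dist x y / d j := by ring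
    have h6 : defect P c j G v y - defect P c j G v x = G x - G y - ((x c - y c : ℤ) : ℝ) := by
      unfold defect; push_cast; ring
    rw [h6]; linarith
  have e1 := ext_on hP0 hd hb1 hx (fun y _ => by
    have := (abs_le.1 (hlip y)).2
    linarith) hfar
  have e2 := ext_on hP0 hd hb2 hx (fun y _ => by
    have := (abs_le.1 (hlip y)).1
    linarith) hfar
  rw [lay_eq, e1, e2]
  have e3 : max 0 (defect P c j G v x) - max 0 (-defect P c j G v x) = defect P c j G v x := by
    rcases le_total 0 (defect P c j G v x) with h | h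
    · rw [max_eq_right h, max_eq_left (by linarith)]; ring
    · rw [max_eq_left h, max_eq_right (by linarith)]; ring
  have e4 : G x + max 0 (defect P c j G v x) - max 0 (-defect P c j G v x) =
      G x + defect P c j G v x := by linarith
  rw [e4]
  unfold defect
  ring

theorem Inv.lays {D : ℕ → Z2 → Set Z2} (hD : Toast T L D) {c : Fin 2} (m : ℕ) :
    ∀ {G : Z2 → ℝ}, Inv d c m G → Inv d c 0 (lays P d D c m G) := by
  induction m with
  | zero => intro G hG; exact hG
  | succ m ih =>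
    intro G hG
    exact ih (Inv.lay hL hD hG)

/-- the local lemma, one layer -/
theorem lay_local {D D' : ℕ → Z2 → Set Z2} (hD : Toast T L D) (hD' : Toast T L D') {c : Fin 2}
    {i m : ℕ} (hmi : m < i) {v : Z2} (hQ : D i v = D' i v)
    (hag : ∀ w, (((D m w).Nonempty ∧ D m w ⊆ D i v) ∨ ((D' m w).Nonempty ∧ D' m w ⊆ D i v)) →
      D m w = D' m w) {G G' : Z2 → ℝ} (hG : Inv d c (m + 1) G) (hG' : Inv d c (m + 1) G') {n : ℤ}
    (h : ∀ x ∈ D i v, G x = G' x + P i * n) :
    ∀ x ∈ D i v, lay P d D c m G x = lay P d D' c m G' x + P i * n := by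
  intro x hx
  have hd := d_pos' hL m
  have hP0 : (0 : ℝ) ≤ P m := Nat.cast_nonneg _
  have hPm : (0 : ℝ) < P m := by
    have : (6 : ℝ) ≤ P m := by exact_mod_cast hL.hP m
    linarith
  have hTm : (P m : ℝ) * d m ≤ T m := by exact_mod_cast hL.hT m
  have hb : ∀ v y, y ∈ D m v → |defect P c m G v y| ≤ (P m : ℝ) := fun v y h =>
    abs_defect_le hL hD hG h
  have hb' : ∀ v y, y ∈ D' m v → |defect P c m G' v y| ≤ (P m : ℝ) := fun v y h =>
    abs_defect_le hL hD' hG' h
  have hkey : ∀ w y, dist x y ≤ P m * d m → ((y ∈ D m w ↔ y ∈ D' m w) ∧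
      (y ∈ D m w → defect P c m G w y = defect P c m G' w y)) := by
    intro w y hxy
    have hyx : dist y x ≤ T m := by rw [dist_comm]; linarith
    have hiff : y ∈ D m w ↔ y ∈ D' m w := by
      constructor
      · intro hy
        have hsub := hD.nest m i v w y x hmi hy hx hyx
        rw [← hag w (Or.inl ⟨⟨y, hy⟩, hsub⟩)]; exact hy
      · intro hy
        have hsub := hD'.nest m i v w y x hmi hy (hQ ▸ hx) hyx
        rw [hag w (Or.inr ⟨⟨y, hy⟩, hQ ▸ hsub⟩)]; exact hy
    refine ⟨hiff, fun hy => ?_⟩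
    have hsub := hD.nest m i v w y x hmi hy hx hyx
    have hw := hsub (hD.self _ _ _ hy)
    have hy' := hsub hy
    obtain ⟨e, he⟩ := hL.hdvd m i hmi.le
    have he' : (P i : ℝ) = P m * e := by exact_mod_cast he
    have hr : round (G w / P m) = round (G' w / P m) + (e * n : ℤ) := by
      have h1 : G w / P m = G' w / P m + ((e * n : ℤ) : ℝ) := by
        rw [h w hw, he']; push_cast; field_simp
      rw [h1, round_add_intCast]
    unfold defect
    rw [hr, h y hy', he']
    push_cast
    ring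
  have e1 : ext (D m) (defect P c m G) (d m) x = ext (D' m) (defect P c m G') (d m) x :=
    ext_congr hd (fun v y h => (abs_le.1 (hb v y h)).2) (fun v y h => (abs_le.1 (hb' v y h)).2) hkey
  have e2 : ext (D m) (fun v y => -defect P c m G v y) (d m) x =
      ext (D' m) (fun v y => -defect P c m G' v y) (d m) x :=
    ext_congr hd (fun v y h => by
      have := (abs_le.1 (hb v y h)).1
      linarith) (fun v y h => by
      have := (abs_le.1 (hb' v y h)).1
      linarith) (fun w y hxy => ⟨(hkey w y hxy).1, fun hy => by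
        rw [(hkey w y hxy).2 hy]⟩)
  rw [lay_eq, lay_eq, e1, e2, h x hx]
  ring

theorem lays_local {D D' : ℕ → Z2 → Set Z2} (hD : Toast T L D) (hD' : Toast T L D') {c : Fin 2}
    {i : ℕ} {v : Z2} (hQ : D i v = D' i v)
    (hag : ∀ m < i, ∀ w, (((D m w).Nonempty ∧ D m w ⊆ D i v) ∨
      ((D' m w).Nonempty ∧ D' m w ⊆ D i v)) → D m w = D' m w) {n : ℤ} (m : ℕ) :
    m ≤ i → ∀ {G G' : Z2 → ℝ}, Inv d c m G → Inv d c m G' →
    (∀ x ∈ D i v, G x = G' x + P i * n) →
    ∀ x ∈ D i v, lays P d D c m G x = lays P d D' c m G' x + P i * n := by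
  induction m with
  | zero => intro _ G G' _ _ h; exact h
  | succ m ih =>
    intro hm G G' hG hG' h
    exact ih (by omega) (Inv.lay hL hD hG) (Inv.lay hL hD' hG')
      (lay_local hL hD hD' (by omega) hQ (hag m (by omega)) hG hG' h)

theorem inv_start (c : Fin 2) (m : ℕ) (v : Z2) : Inv d c m (fun x => ((x c - v c : ℤ) : ℝ)) := by
  intro x y
  have : ((x c - v c : ℤ) : ℝ) - ((y c - v c : ℤ) : ℝ) - ((x c - y c : ℤ) : ℝ) = 0 := by
    push_cast; ring
  simp only [this, abs_zero]
  have := d_pos' hL m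
  positivity

theorem consist {D : ℕ → Z2 → Set Z2} (hD : Toast T L D) {c : Fin 2} {i : ℕ} {v : Z2} (m : ℕ) :
    i < m → ∀ {G : Z2 → ℝ}, Inv d c m G → ∃ n : ℤ, ∀ x ∈ D i v,
      lays P d D c m G x = Psi P d D c i v x + P i * n := by
  induction m with
  | zero => intro h; omega
  | succ m ih =>
    intro him G hG
    rcases Nat.lt_or_ge i m with h | h
    · exact ih h (Inv.lay hL hD hG)
    · have him' : i = m := by omega
      subst him'
      refine ⟨round (G v / P i), ?_⟩
      exact lays_local hL hD hD rfl (fun _ _ _ _ => rfl) i le_rfl (Inv.lay hL hD hG)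
        (inv_start hL c i v) (fun x hx => lay_on hL hD hG hx)

end lay

/-! ## Equivariance -/

/-- translated pieces -/
def trD (D : ℕ → Z2 → Set Z2) (t : Z2) : ℕ → Z2 → Set Z2 := fun i w => {z | z + t ∈ D i (w + t)}

theorem ext_tr (D : ℕ → Z2 → Set Z2) (t : Z2) (j : ℕ) (q q' : Z2 → Z2 → ℝ)
    (h : ∀ v y, q v y = q' (v + t) (y + t)) (dd : ℝ) (x : Z2) :
    ext (trD D t j) q dd x = ext (D j) q' dd (x + t) := by
  classical
  unfold ext
  have e : Function.Surjective (fun p : Z2 × Z2 => (p.1 + t, p.2 + t)) := fun p =>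
    ⟨(p.1 - t, p.2 - t), by simp⟩
  refine Eq.trans ?_ (e.iSup_comp (g := fun p : Z2 × Z2 =>
    if p.2 ∈ D j p.1 then max 0 (q' p.1 p.2 - dist (x + t) p.2 / dd) else 0))
  congr 1
  funext p
  simp only [h, dist_add_right]
  rfl

theorem lay_tr (P d : ℕ → ℕ) (D : ℕ → Z2 → Set Z2) (t : Z2) (c : Fin 2) (j : ℕ) (G : Z2 → ℝ) :
    lay P d (trD D t) c j (fun x => G (x + t)) = fun x => lay P d D c j G (x + t) := by
  funext x
  rw [lay_eq, lay_eq]
  have h1 : ∀ v y, defect P c j (fun x => G (x + t)) v y = defect P c j G (v + t) (y + t) := by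
    intro v y
    unfold defect
    simp only [Pi.add_apply, add_sub_add_right_eq_sub]
  rw [ext_tr D t j _ (defect P c j G) h1, ext_tr D t j (fun v y => -defect P c j (fun x => G (x + t)) v y)
    (fun v y => -defect P c j G v y) (fun v y => by rw [h1])]

theorem lays_tr (P d : ℕ → ℕ) (D : ℕ → Z2 → Set Z2) (t : Z2) (c : Fin 2) (m : ℕ) :
    ∀ G : Z2 → ℝ, lays P d (trD D t) c m (fun x => G (x + t)) =
      fun x => lays P d D c m G (x + t) := by
  induction m with
  | zero => intro G; rfl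
  | succ m ih =>
    intro G
    show lays P d (trD D t) c m (lay P d (trD D t) c m (fun x => G (x + t))) = _
    rw [lay_tr, ih]
    rfl

/-- MODULE F2 -/
theorem layer : LayerStatement := by
  intro P d T L hL c
  refine ⟨?_, ?_, ?_, ?_⟩
  · intro D hD k v x y
    have h := Inv.lays hL hD k (inv_start hL c k v) x y
    refine h.trans ?_
    have h30 : (30 : ℝ) ≤ d 0 := by exact_mod_cast hL.hd0
    have h1 : (3 : ℝ) / d 0 ≤ 1 / 10 := by
      rw [div_le_div_iff₀ (by linarith) (by norm_num)]; linarith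
    calc 3 / (d 0 : ℝ) * dist x y ≤ 1 / 10 * dist x y := mul_le_mul_of_nonneg_right h1 dist_nonneg
      _ = dist x y / 10 := by ring
  · intro D hD i j v w hij x hxv hxw
    rcases Nat.lt_or_ge i j with h | h
    · obtain ⟨n, hn⟩ := consist hL hD (v := v) j h (inv_start hL c j w)
      exact ⟨n, hn x hxv⟩
    · have hij' : i = j := le_antisymm hij h
      subst hij'
      have hvw : v = w := by
        by_contra hne
        have := hD.sep i v w x x hne hxv hxw
        rw [dist_self] at this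
        have h0 : (0 : ℝ) ≤ T i := Nat.cast_nonneg _
        linarith
      subst hvw
      exact ⟨0, by simp⟩
  · intro D D' hD hD' k v hQ hag x hx
    have := lays_local hL hD hD' (c := c) (n := 0) hQ hag k le_rfl (inv_start hL c k v)
      (inv_start hL c k v) (fun x _ => by simp) x hx
    rw [Int.cast_zero, mul_zero, add_zero] at this
    exact this
  · intro D t k v x
    have h := lays_tr P d D t c k (fun x => ((x c - (v + t) c : ℤ) : ℝ))
    have h1 : (fun x : Z2 => (((x + t) c - (v + t) c : ℤ) : ℝ)) =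
        fun x => ((x c - v c : ℤ) : ℝ) := by
      funext x
      simp only [Pi.add_apply, add_sub_add_right_eq_sub]
    rw [h1] at h
    exact congrFun h x

end Pool.Agent.Helper98_SFT
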