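import Pool.Agent.Helper50_SFT.Defs

/-!
# MP_5e5085_pr, module T2: a Toeplitz point of the rigid SFT
-/

set_option autoImplicit false

namespace Pool.Agent.Helper98_SFT

open Pool.Agent.Helper50_SFT

/-! ## Arithmetic of the scales -/

theorem NN_ge (k : ℕ) : 3 ≤ NN k := by
  induction k with
  | zero => exact le_rfl
  | succ k ih =>
    have h1 : 2 ^ 2 ≤ 2 ^ (NN k - 1) := Nat.pow_le_pow_right (by norm_num) (by omega)
    show 3 ≤ 2 ^ (NN k - 1)
    omega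

theorem NN_pos (k : ℕ) : 0 < NN k := by have := NN_ge k; omega

theorem NN_succ (k : ℕ) : NN (k + 1) = 2 ^ (NN k - 1) := rfl

theorem ell_succ (k : ℕ) : ell (k + 1) = ell k * NN k := rfl

theorem ell_pos (k : ℕ) : 0 < ell k := by
  induction k with
  | zero => exact Nat.one_pos
  | succ k ih => exact Nat.mul_pos ih (NN_pos k)

theorem ell_dvd {k l : ℕ} (h : k ≤ l) : ell k ∣ ell l := by
  induction l, h using Nat.le_induction with
  | base => exact dvd_rfl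
  | succ l _ ih => exact ih.trans (Dvd.intro _ rfl)

theorem ell_dvd' {k l : ℕ} (h : k ≤ l) : (ell k : ℤ) ∣ ell l := by exact_mod_cast ell_dvd h

theorem lt_ell (k : ℕ) : k < ell k := by
  induction k with
  | zero => exact Nat.one_pos
  | succ k ih =>
    have := NN_ge k
    have := ell_pos k
    rw [ell_succ]
    nlinarith

/-- digit -/
def dg (k : ℕ) (x : ℤ) : ℕ := ((x / ell k) % NN k).toNat

theorem dg_cast (k : ℕ) (x : ℤ) : (dg k x : ℤ) = (x / ell k) % NN k := by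
  unfold dg
  rw [Int.toNat_of_nonneg]
  exact Int.emod_nonneg _ (by have := NN_pos k; omega)

theorem dg_lt (k : ℕ) (x : ℤ) : dg k x < NN k := by
  have h : (dg k x : ℤ) < NN k := by
    rw [dg_cast]
    exact Int.emod_lt_of_pos _ (by have := NN_pos k; omega)
  exact_mod_cast h

theorem ediv_sub_one {n : ℤ} (hn : 0 < n) {x : ℤ} (h : ¬ n ∣ x) : (x - 1) / n = x / n := by
  have h1 := Int.mul_ediv_add_emod x n
  have h2 : x % n ≠ 0 := fun h' => h (Int.dvd_of_emod_eq_zero h')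
  have h3 := Int.emod_nonneg x hn.ne'
  have h4 := Int.emod_lt_of_pos x hn
  have h5 : x - 1 = (x % n - 1) + n * (x / n) := by linarith
  rw [h5, Int.add_mul_ediv_left _ _ hn.ne', Int.ediv_eq_zero_of_lt (by omega) (by omega), zero_add]

theorem ediv_sub_one' {n : ℤ} (hn : 0 < n) (q : ℤ) : (n * q - 1) / n = q - 1 := by
  have h5 : n * q - 1 = (n - 1) + n * (q - 1) := by ring
  rw [h5, Int.add_mul_ediv_left _ _ hn.ne', Int.ediv_eq_zero_of_lt (by omega) (by omega), zero_add]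

theorem dg_sub_of_not_dvd {k : ℕ} {x : ℤ} (h : ¬ (ell k : ℤ) ∣ x) : dg k (x - 1) = dg k x := by
  unfold dg
  rw [ediv_sub_one (by exact_mod_cast ell_pos k) h]

theorem dg_pos {k : ℕ} {x : ℤ} (h1 : (ell k : ℤ) ∣ x) (h2 : ¬ (ell (k + 1) : ℤ) ∣ x) :
    1 ≤ dg k x := by
  by_contra h
  have h0 : (dg k x : ℤ) = 0 := by omega
  rw [dg_cast] at h0
  apply h2
  obtain ⟨q, rfl⟩ := h1
  have hpos : (ell k : ℤ) ≠ 0 := by have := ell_pos k; omega
  rw [Int.mul_ediv_cancel_left _ hpos] at h0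
  rw [ell_succ]
  push_cast
  exact mul_dvd_mul_left _ (Int.dvd_of_emod_eq_zero h0)

theorem dg_sub_of_dvd {k : ℕ} {x : ℤ} (h1 : (ell k : ℤ) ∣ x) (h2 : ¬ (ell (k + 1) : ℤ) ∣ x) :
    dg k (x - 1) = dg k x - 1 := by
  have hp := dg_pos h1 h2
  have hlt := dg_lt k x
  have hc := dg_cast k x
  have hc' := dg_cast k (x - 1)
  obtain ⟨q, rfl⟩ := h1
  have hpos : (0 : ℤ) < ell k := by exact_mod_cast ell_pos k
  rw [Int.mul_ediv_cancel_left _ hpos.ne'] at hc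
  rw [ediv_sub_one' hpos] at hc'
  have hN : (0 : ℤ) < NN k := by exact_mod_cast NN_pos k
  have h3 : (q - 1) % (NN k : ℤ) = q % NN k - 1 := by
    have h4 := Int.mul_ediv_add_emod q (NN k)
    have h5 : q - 1 = (q % NN k - 1) + NN k * (q / NN k) := by linarith
    rw [h5, Int.add_mul_emod_self_left, ← hc]
    apply Int.emod_eq_of_lt <;> omega
  rw [h3, ← hc] at hc'
  omega

theorem dg_of_dvd {k : ℕ} {y : ℤ} (h : (ell (k + 1) : ℤ) ∣ y) :
    dg k y = 0 ∧ dg k (y - 1) = NN k - 1 ∧ (dg (k + 1) (y - 1) + 1) % NN (k + 1) = dg (k + 1) y := by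
  have hN : (0 : ℤ) < NN k := by exact_mod_cast NN_pos k
  have hpos : (0 : ℤ) < ell k := by exact_mod_cast ell_pos k
  have hpos' : (0 : ℤ) < ell (k + 1) := by exact_mod_cast ell_pos (k + 1)
  have hN' : (0 : ℤ) < NN (k + 1) := by exact_mod_cast NN_pos (k + 1)
  have hN3 := NN_ge k
  obtain ⟨q, rfl⟩ := h
  have hq : (ell (k + 1) : ℤ) * q = ell k * (NN k * q) := by rw [ell_succ]; push_cast; ring
  refine ⟨?_, ?_, ?_⟩
  · have hc := dg_cast k (ell (k + 1) * q)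
    rw [hq, Int.mul_ediv_cancel_left _ hpos.ne', Int.mul_emod_right] at hc
    rw [hq]; exact_mod_cast hc
  · have hc := dg_cast k (ell (k + 1) * q - 1)
    rw [hq, ediv_sub_one' hpos] at hc
    have h5 : (NN k : ℤ) * q - 1 = (NN k - 1) + NN k * (q - 1) := by ring
    rw [h5, Int.add_mul_emod_self_left, Int.emod_eq_of_lt (by omega) (by omega)] at hc
    rw [hq]; omega
  · have hc := dg_cast (k + 1) (ell (k + 1) * q)
    have hc' := dg_cast (k + 1) (ell (k + 1) * q - 1)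
    rw [Int.mul_ediv_cancel_left _ hpos'.ne'] at hc
    rw [ediv_sub_one' hpos'] at hc'
    have h6 : (((dg (k + 1) (ell (k + 1) * q - 1) + 1) % NN (k + 1) : ℕ) : ℤ) =
        (dg (k + 1) (ell (k + 1) * q) : ℕ) := by
      push_cast
      rw [hc, hc', Int.emod_add_emod]
      congr 1; ring
    exact_mod_cast h6

theorem not_dvd_of_dg {k : ℕ} {y : ℤ} (h : dg k y ≠ 0) : ¬ (ell (k + 1) : ℤ) ∣ y :=
  fun h' => h (dg_of_dvd h').1

theorem dg_add {κ k : ℕ} (h : κ ≤ k) (x m : ℤ) : dg κ (x + m * ell (k + 1)) = dg κ x := by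
  have hpos : (0 : ℤ) < ell κ := by exact_mod_cast ell_pos κ
  obtain ⟨e, he⟩ := ell_dvd' (show κ + 1 ≤ k + 1 by omega)
  unfold dg
  congr 1
  have h1 : x + m * (ell (k + 1) : ℤ) = x + ell κ * (NN κ * (e * m)) := by
    rw [he, ell_succ]; push_cast; ring
  rw [h1, Int.add_mul_ediv_left _ _ hpos.ne', Int.add_mul_emod_self_left]

theorem dvd_add_iff {κ k : ℕ} (h : κ ≤ k + 1) (x m : ℤ) :
    (ell κ : ℤ) ∣ x + m * ell (k + 1) ↔ (ell κ : ℤ) ∣ x := by
  have h1 : (ell κ : ℤ) ∣ m * ell (k + 1) := Dvd.dvd.mul_left (ell_dvd' h) m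
  exact (Int.dvd_add_left h1)

/-! ## Bits -/

theorem tb2 (i y : ℕ) : (i % 2 ^ (y + 1) = 0) ↔ (i % 2 ^ y = 0 ∧ i.testBit y = false) := by
  rw [Nat.testBit_eq_decide_div_mod_eq, pow_succ, Nat.mod_mul]
  have hp : 0 < 2 ^ y := by positivity
  have h2 : i / 2 ^ y % 2 = 0 ∨ i / 2 ^ y % 2 = 1 := by omega
  rcases h2 with h | h
  · rw [h]; simp
  · rw [h]; simp

theorem tb3 (i y : ℕ) : (i % 2 ^ (y + 1) = 2 ^ (y + 1) - 1) ↔
    (i % 2 ^ y = 2 ^ y - 1 ∧ i.testBit y = true) := by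
  rw [Nat.testBit_eq_decide_div_mod_eq, pow_succ, Nat.mod_mul]
  have hp : 0 < 2 ^ y := by positivity
  have hlt := Nat.mod_lt i hp
  have h2 : i / 2 ^ y % 2 = 0 ∨ i / 2 ^ y % 2 = 1 := by omega
  rcases h2 with h | h
  · rw [h]; simp; omega
  · rw [h]; simp; omega

theorem tb1 (i y n : ℕ) (h : y < n) : ((i + 1) % 2 ^ n).testBit y =
    xor (i.testBit y) (decide (i % 2 ^ y = 2 ^ y - 1)) := by
  rw [Nat.testBit_mod_two_pow, decide_eq_true h, Bool.true_and,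
    Nat.testBit_eq_decide_div_mod_eq, Nat.testBit_eq_decide_div_mod_eq]
  have hp : 0 < 2 ^ y := by positivity
  have hlt := Nat.mod_lt i hp
  have hdm := Nat.div_add_mod i (2 ^ y)
  by_cases hc : i % 2 ^ y = 2 ^ y - 1
  · have h1 : (i + 1) / 2 ^ y = i / 2 ^ y + 1 := by
      have : i + 1 = 2 ^ y * (i / 2 ^ y + 1) := by rw [mul_add]; omega
      rw [this, Nat.mul_div_cancel_left _ hp]
    rw [h1, decide_eq_true hc]
    have h2 : i / 2 ^ y % 2 = 0 ∨ i / 2 ^ y % 2 = 1 := by omega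
    rcases h2 with h2 | h2
    · have : (i / 2 ^ y + 1) % 2 = 1 := by omega
      rw [this, h2]; simp
    · have : (i / 2 ^ y + 1) % 2 = 0 := by omega
      rw [this, h2]; simp
  · have h1 : (i + 1) / 2 ^ y = i / 2 ^ y := by
      have : i + 1 = (i % 2 ^ y + 1) + 2 ^ y * (i / 2 ^ y) := by omega
      rw [this, Nat.add_mul_div_left _ _ hp, Nat.div_eq_of_lt (by omega), zero_add]
    rw [h1, decide_eq_false hc]; simp

/-! ## Edge contents -/

/-- content of an edge of level `k`, `N = NN k` -/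
def Ed (N X Y i j : ℕ) : Ct where
  t := decide (X = 0)
  b := (if X = 0 then i else (i + 1) % 2 ^ (N - 1)).testBit (Y - 1)
  F := decide (Y = 1)
  Z := decide (Y = 1 ∧ j = 0)
  a := decide (Y = 1 ∧ j % 2 ^ X = 0)
  c := decide (Y = 1 ∧ j % 2 ^ X = 2 ^ X - 1)
  K := decide (Y = 1 ∧ X = 0 ∧ i = 0)

/-- the empty content -/
def Ct0 : Ct := ⟨false, false, false, false, false, false, false⟩

open Classical in
/-- horizontal edge `(x,y)-(x+1,y)` -/
noncomputable def Hc (x y : ℤ) : Ct :=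
  if h : ∃ k, ¬ (ell (k + 1) : ℤ) ∣ y then
    Ed (NN (Nat.find h)) (dg (Nat.find h) x) (dg (Nat.find h) y) (dg (Nat.find h + 1) x)
      (dg (Nat.find h + 1) y)
  else Ct0

theorem Hc_eq {k : ℕ} {y : ℤ} (h1 : (ell k : ℤ) ∣ y) (h2 : ¬ (ell (k + 1) : ℤ) ∣ y) (x : ℤ) :
    Hc x y = Ed (NN k) (dg k x) (dg k y) (dg (k + 1) x) (dg (k + 1) y) := by
  classical
  have h : ∃ k, ¬ (ell (k + 1) : ℤ) ∣ y := ⟨k, h2⟩
  have hf : Nat.find h = k := by
    rw [Nat.find_eq_iff]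
    refine ⟨h2, fun n hn => ?_⟩
    rw [not_not]
    exact (ell_dvd' (by omega)).trans h1
  unfold Hc
  rw [dif_pos h, hf]

theorem Hc_zero (x : ℤ) : Hc x 0 = Ct0 := by
  unfold Hc
  rw [dif_neg]
  simp

theorem exists_level {y : ℤ} (hy : y ≠ 0) : ∃ k, (ell k : ℤ) ∣ y ∧ ¬ (ell (k + 1) : ℤ) ∣ y := by
  classical
  have h : ∃ k, ¬ (ell (k + 1) : ℤ) ∣ y := by
    refine ⟨y.natAbs, fun hd => ?_⟩
    have h1 := Int.natAbs_dvd_natAbs.2 hd
    have h2 := Nat.le_of_dvd (Int.natAbs_pos.2 hy) h1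
    have h3 := lt_ell (y.natAbs + 1)
    rw [Int.natAbs_natCast] at h2
    omega
  refine ⟨Nat.find h, ?_, Nat.find_spec h⟩
  rcases Nat.eq_zero_or_pos (Nat.find h) with h0 | h0
  · rw [h0]; simp [ell]
  · have := Nat.find_min h (show Nat.find h - 1 < Nat.find h by omega)
    rw [not_not] at this
    have h3 : Nat.find h - 1 + 1 = Nat.find h := by omega
    rwa [h3] at this

theorem okA_half (N X Y i j : ℕ) (hX : 1 ≤ X) (hY : 1 ≤ Y) (hYN : Y < N) :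
    (if (Ed N (Y - 1) X j i).F = true then
      (Ed N Y X j i).a = ((Ed N (Y - 1) X j i).a && !(Ed N (X - 1) Y i j).b) ∧
      (Ed N Y X j i).c = ((Ed N (Y - 1) X j i).c && (Ed N (X - 1) Y i j).b) ∧
      (Ed N X Y i j).b = xor (Ed N (X - 1) Y i j).b (Ed N (Y - 1) X j i).c ∧
        ((Ed N (X - 1) Y i j).F = true →
          (Ed N (Y - 1) X j i).a = true ∧ (Ed N (Y - 1) X j i).c = true)
    else (Ed N (Y - 1) X j i).a = (Ed N (Y - 1) X j i).Z ∧ (Ed N Y X j i).a = (Ed N Y X j i).Z ∧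
      (Ed N X Y i j).b = (Ed N (X - 1) Y i j).b) := by
  obtain ⟨y, rfl⟩ : ∃ y, Y = y + 1 := ⟨Y - 1, by omega⟩
  by_cases h1 : X = 1
  · subst h1
    have ht := tb1 i y (N - 1) (by omega)
    have ht2 := tb2 i y
    have ht3 := tb3 i y
    simp only [Ed, Nat.add_sub_cancel, Nat.sub_self, decide_true, if_true, true_and, one_ne_zero,
      if_false]
    refine ⟨?_, ?_, ht, ?_⟩
    · rw [decide_eq_decide.2 ht2, Bool.decide_and]
      congr 1
      rcases Bool.eq_false_or_eq_true (i.testBit y) with hb | hb <;> rw [hb] <;> rfl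
    · rw [decide_eq_decide.2 ht3, Bool.decide_and]
      congr 1
      rcases Bool.eq_false_or_eq_true (i.testBit y) with hb | hb <;> rw [hb] <;> rfl
    · intro h
      have : y = 0 := by simpa using h
      subst this
      simp
      omega
  · have h2 : X - 1 ≠ 0 := by omega
    have h3 : X ≠ 0 := by omega
    simp [Ed, h1, h2, h3]


theorem okA_Ed (N X Y i j : ℕ) (hX : 1 ≤ X) (hXN : X < N) (hY : 1 ≤ Y) (hYN : Y < N) :
    okA (Ed N (X - 1) Y i j) (Ed N X Y i j) (Ed N (Y - 1) X j i) (Ed N Y X j i) := by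
  have h3 : X ≠ 0 := by omega
  have h4 : Y ≠ 0 := by omega
  refine ⟨?_, ?_, ?_, ?_, ?_, ?_, okA_half N X Y i j hX hY hYN, okA_half N Y X j i hY hX hXN, ?_⟩
  · simp [Ed, h3]
  · simp [Ed, h4]
  · simp only [Ed, decide_eq_decide]; omega
  · simp only [Ed, decide_eq_decide]; omega
  · simp [Ed]
  · simp [Ed]
  · intro h1 h2
    have hX1 : X = 1 := by simpa [Ed] using h1
    have hY1 : Y = 1 := by simpa [Ed] using h2
    subst hX1 hY1
    simp [Ed]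

theorem okA_zero : okA Ct0 Ct0 Ct0 Ct0 := by
  simp [okA, Ct0]

/-- the case `lv x < lv y` -/
theorem okB_Hc {κ : ℕ} {x y : ℤ} (hx1 : (ell κ : ℤ) ∣ x) (hx2 : ¬ (ell (κ + 1) : ℤ) ∣ x)
    (hy : (ell (κ + 1) : ℤ) ∣ y) : okB (Hc (x - 1) y) (Hc x y) (Hc (y - 1) x) (Hc y x) := by
  obtain ⟨hd1, hd2, hd3⟩ := dg_of_dvd hy
  have hN3 := NN_ge κ
  have hrl : Hc x y = Hc (x - 1) y := by
    by_cases hy0 : y = 0
    · subst hy0; rw [Hc_zero, Hc_zero]
    · obtain ⟨k, hk1, hk2⟩ := exists_level hy0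
      have hkκ : κ + 1 ≤ k := by
        by_contra hcon
        exact hk2 ((ell_dvd' (by omega)).trans hy)
      have hn1 : ¬ (ell k : ℤ) ∣ x := fun h => hx2 ((ell_dvd' hkκ).trans h)
      have hn2 : ¬ (ell (k + 1) : ℤ) ∣ x := fun h => hx2 ((ell_dvd' (by omega)).trans h)
      rw [Hc_eq hk1 hk2, Hc_eq hk1 hk2, dg_sub_of_not_dvd hn1, dg_sub_of_not_dvd hn2]
  have hu := Hc_eq hx1 hx2 y
  have hd := Hc_eq hx1 hx2 (y - 1)
  rw [hd1] at hu
  rw [hd2] at hd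
  have hlt := dg_lt (κ + 1) x
  rw [NN_succ] at hlt hd3
  refine ⟨hrl, ?_, ?_, ?_, ?_, ?_⟩
  · rw [hu]; simp [Ed]
  · rw [hu, hd]
    have h0 : NN κ - 1 ≠ 0 := by omega
    simp only [Ed, if_true, if_neg h0]
    rw [hd3]
  · rw [hu, hd]; simp [Ed]
  · rw [hd]; simp only [Ed, decide_eq_decide]
    rw [Nat.mod_eq_of_lt hlt]
  · rw [hu]
    intro hF hK
    have hX : dg κ x = 1 := by simpa [Ed] using hF
    have hj : dg (κ + 1) y ≠ 0 := by
      intro h0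
      have : (Ed (NN κ) 0 (dg κ x) (dg (κ + 1) y) (dg (κ + 1) x)).K = true := by
        simp [Ed, hX, h0]
      rw [hK] at this
      exact absurd this (by simp)
    have hl := Hc_eq hy (not_dvd_of_dg hj) (x - 1)
    rw [hl, dg_sub_of_not_dvd hx2]
    simp [Ed, hX]

open Classical in
/-- type of a cell -/
noncomputable def tyc (x y : ℤ) : Ty :=
  if ∃ k, (ell k : ℤ) ∣ y ∧ ¬ (ell k : ℤ) ∣ x then Ty.B
  else if ∃ k, (ell k : ℤ) ∣ x ∧ ¬ (ell k : ℤ) ∣ y then Ty.L else Ty.A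

/-- the Toeplitz point -/
noncomputable def tau (x y : ℤ) : Cell where
  px := (x : ZMod 3)
  py := (y : ZMod 3)
  ty := tyc x y
  l := Hc (x - 1) y
  r := Hc x y
  d := Hc (y - 1) x
  u := Hc y x

theorem tyc_B {x y : ℤ} (h : tyc x y = Ty.B) : ∃ k, (ell k : ℤ) ∣ y ∧ ¬ (ell k : ℤ) ∣ x := by
  unfold tyc at h
  split_ifs at h with h1
  exact h1

theorem tyc_L {x y : ℤ} (h : tyc x y = Ty.L) : ∃ k, (ell k : ℤ) ∣ x ∧ ¬ (ell k : ℤ) ∣ y := by
  unfold tyc at h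
  split_ifs at h with h1 h2
  exact h2

theorem tyc_A {x y : ℤ} (h : tyc x y = Ty.A) : ∀ k, (ell k : ℤ) ∣ x ↔ (ell k : ℤ) ∣ y := by
  unfold tyc at h
  split_ifs at h with h1 h2
  push Not at h1 h2
  exact fun k => ⟨h2 k, h1 k⟩

theorem okB_of {x y : ℤ} (h : ∃ k, (ell k : ℤ) ∣ y ∧ ¬ (ell k : ℤ) ∣ x) :
    okB (Hc (x - 1) y) (Hc x y) (Hc (y - 1) x) (Hc y x) := by
  obtain ⟨k, h1, h2⟩ := h
  have hx0 : x ≠ 0 := by rintro rfl; exact h2 (dvd_zero _)
  obtain ⟨κ, hκ1, hκ2⟩ := exists_level hx0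
  have hκk : κ + 1 ≤ k := by
    by_contra hcon
    exact h2 ((ell_dvd' (by omega)).trans hκ1)
  exact okB_Hc hκ1 hκ2 ((ell_dvd' hκk).trans h1)

theorem okA_of {x y : ℤ} (h : ∀ k, (ell k : ℤ) ∣ x ↔ (ell k : ℤ) ∣ y) :
    okA (Hc (x - 1) y) (Hc x y) (Hc (y - 1) x) (Hc y x) := by
  by_cases hx0 : x = 0
  · have hy0 : y = 0 := by
      by_contra hy0
      obtain ⟨k, _, hk⟩ := exists_level hy0
      exact hk ((h _).1 (by rw [hx0]; exact dvd_zero _))
    subst hx0 hy0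
    simp only [Hc_zero]
    exact okA_zero
  · obtain ⟨k, hk1, hk2⟩ := exists_level hx0
    have hy1 := (h _).1 hk1
    have hy2 : ¬ (ell (k + 1) : ℤ) ∣ y := fun h' => hk2 ((h _).2 h')
    rw [Hc_eq hy1 hy2, Hc_eq hy1 hy2, Hc_eq hk1 hk2, Hc_eq hk1 hk2, dg_sub_of_dvd hk1 hk2,
      dg_sub_of_dvd hy1 hy2, dg_sub_of_not_dvd hk2, dg_sub_of_not_dvd hy2]
    exact okA_Ed _ _ _ _ _ (dg_pos hk1 hk2) (dg_lt _ _) (dg_pos hy1 hy2) (dg_lt _ _)

theorem ell_one_dvd {k : ℕ} (h : 1 ≤ k) : (3 : ℤ) ∣ ell k := by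
  have : (ell 1 : ℤ) = 3 := by simp [ell, NN]
  rw [← this]
  exact ell_dvd' h

theorem dvd_of_zmod {x : ℤ} : ((x : ZMod 3) = 0) ↔ (3 : ℤ) ∣ x := by
  have := ZMod.intCast_zmod_eq_zero_iff_dvd x 3
  simpa using this

theorem three_witness {x y : ℤ} (hx : (x : ZMod 3) = 0) (hy : (y : ZMod 3) ≠ 0) :
    (∃ k, (ell k : ℤ) ∣ x ∧ ¬ (ell k : ℤ) ∣ y) := by
  have h1 : (ell 1 : ℤ) = 3 := by simp [ell, NN]
  refine ⟨1, ?_, ?_⟩
  · rw [h1]; exact dvd_of_zmod.1 hx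
  · rw [h1]; exact fun h => hy (dvd_of_zmod.2 h)

theorem three_not {x y : ℤ} (hy : (y : ZMod 3) ≠ 0) :
    ¬ (∃ k, (ell k : ℤ) ∣ y ∧ ¬ (ell k : ℤ) ∣ x) := by
  rintro ⟨k, h1, h2⟩
  rcases Nat.eq_zero_or_pos k with h0 | h0
  · subst h0
    exact h2 (by simp [ell])
  · exact hy (dvd_of_zmod.2 ((ell_one_dvd h0).trans h1))

theorem tau_ok (x y : ℤ) : (tau x y).ok := by
  refine ⟨?_, ?_, ?_, fun h => okA_of (tyc_A h), fun h => ?_, fun h => okB_of (tyc_B h)⟩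
  · intro (h1 : (x : ZMod 3) ≠ 0) (h2 : (y : ZMod 3) ≠ 0)
    show tyc x y = Ty.A
    unfold tyc
    rw [if_neg (three_not h2), if_neg (three_not h1)]
  · intro (h1 : (x : ZMod 3) = 0) (h2 : (y : ZMod 3) ≠ 0)
    show tyc x y = Ty.L
    unfold tyc
    rw [if_neg (three_not h2), if_pos (three_witness h1 h2)]
  · intro (h1 : (x : ZMod 3) ≠ 0) (h2 : (y : ZMod 3) = 0)
    show tyc x y = Ty.B
    unfold tyc
    rw [if_pos (three_witness h2 h1)]
  · exact okB_of (tyc_L h)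

theorem Hc_per {k : ℕ} {x y : ℤ} (hy : ¬ (ell k : ℤ) ∣ y) (m n : ℤ) :
    Hc (x + m * ell (k + 1)) (y + n * ell (k + 1)) = Hc x y := by
  have hy0 : y ≠ 0 := by rintro rfl; exact hy (dvd_zero _)
  obtain ⟨κ, h1, h2⟩ := exists_level hy0
  have hκ : κ + 1 ≤ k := by
    by_contra hcon
    exact hy ((ell_dvd' (by omega)).trans h1)
  rw [Hc_eq ((dvd_add_iff (by omega) _ _).2 h1) (fun h => h2 ((dvd_add_iff (by omega) _ _).1 h)),
    Hc_eq h1 h2, dg_add (by omega), dg_add (by omega), dg_add (by omega), dg_add (by omega)]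

theorem tyc_per {k : ℕ} {x y : ℤ} (hx : ¬ (ell k : ℤ) ∣ x) (hy : ¬ (ell k : ℤ) ∣ y) (m n : ℤ) :
    tyc (x + m * ell (k + 1)) (y + n * ell (k + 1)) = tyc x y := by
  have key : ∀ {x y : ℤ}, ¬ (ell k : ℤ) ∣ x → ¬ (ell k : ℤ) ∣ y → ∀ m n : ℤ,
      ((∃ l, (ell l : ℤ) ∣ (x + m * ell (k + 1)) ∧ ¬ (ell l : ℤ) ∣ (y + n * ell (k + 1))) ↔
      (∃ l, (ell l : ℤ) ∣ x ∧ ¬ (ell l : ℤ) ∣ y)) := by
    intro x y hx hy m n
    constructor
    · rintro ⟨l, h1, h2⟩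
      have hl : l ≤ k := by
        by_contra hcon
        have : (ell k : ℤ) ∣ x + m * ell (k + 1) := (ell_dvd' (by omega)).trans h1
        exact hx ((dvd_add_iff (by omega) _ _).1 this)
      exact ⟨l, (dvd_add_iff (by omega) _ _).1 h1, fun h => h2 ((dvd_add_iff (by omega) _ _).2 h)⟩
    · rintro ⟨l, h1, h2⟩
      have hl : l ≤ k := by
        by_contra hcon
        exact hx ((ell_dvd' (by omega)).trans h1)
      exact ⟨l, (dvd_add_iff (by omega) _ _).2 h1, fun h => h2 ((dvd_add_iff (by omega) _ _).1 h)⟩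
  have k1 := key hy hx n m
  have k2 := key hx hy m n
  unfold tyc
  by_cases c1 : ∃ l, (ell l : ℤ) ∣ y ∧ ¬ (ell l : ℤ) ∣ x
  · rw [if_pos c1, if_pos (k1.2 c1)]
  · rw [if_neg c1, if_neg (fun h => c1 (k1.1 h))]
    by_cases c2 : ∃ l, (ell l : ℤ) ∣ x ∧ ¬ (ell l : ℤ) ∣ y
    · rw [if_pos c2, if_pos (k2.2 c2)]
    · rw [if_neg c2, if_neg (fun h => c2 (k2.1 h))]

/-- MODULE T2 -/
theorem toeplitz : ToeplitzStatement := by
  refine ⟨tau, ⟨tau_ok, ?_, ?_, ?_, ?_, ?_, ?_⟩, ?_⟩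
  · intro x y
    show Hc x y = Hc (x + 1 - 1) y
    rw [add_sub_cancel_right]
  · intro x y
    show Hc y x = Hc (y + 1 - 1) x
    rw [add_sub_cancel_right]
  · intro x y
    show ((x + 1 : ℤ) : ZMod 3) = (x : ZMod 3) + 1
    push_cast; rfl
  · intro x y; rfl
  · intro x y; rfl
  · intro x y
    show ((y + 1 : ℤ) : ZMod 3) = (y : ZMod 3) + 1
    push_cast; rfl
  · intro k x y hx hy m n
    have hk : 1 ≤ k := by
      rcases Nat.eq_zero_or_pos k with h0 | h0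
      · subst h0; exact absurd (by simp [ell]) hx
      · exact h0
    have h3 : ∀ m : ℤ, (((m * ell (k + 1) : ℤ)) : ZMod 3) = 0 := fun m =>
      dvd_of_zmod.2 (Dvd.dvd.mul_left (ell_one_dvd (by omega)) m)
    have e1 : ∀ x m : ℤ, (((x + m * ell (k + 1) : ℤ)) : ZMod 3) = (x : ZMod 3) := by
      intro x m
      rw [Int.cast_add, h3, add_zero]
    have hx1 : ∀ x m : ℤ, x + m * (ell (k + 1) : ℤ) - 1 = (x - 1) + m * ell (k + 1) := by
      intro x m; ring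
    unfold tau
    simp only [hx1]
    rw [e1, e1, tyc_per hx hy, Hc_per hy, Hc_per hy, Hc_per hx, Hc_per hx]

end Pool.Agent.Helper98_SFT
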